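import Pool.Agent.KS6_84.Roof.Main

/-!
# Touching balls, and the main theorem
-/

set_option autoImplicit false

open Metric Set Filter Topology

namespace KS6_84.Roof

open Q72.Psh Q72.Res

variable {n : ℕ} {D : Set (Cn n)}

/-- There are a ball contained in `D` and a (closed) ball containing `D` whose boundary spheres
have a common point `p`. -/
def Touching {n : ℕ} (D : Set (Cn n)) : Prop :=
  ∃ (p c c' : Cn n) (R r : ℝ), 0 < r ∧ dist p c = R ∧ dist p c' = r ∧ ball c' r ⊆ D ∧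
    D ⊆ closedBall c R

/-- The interior ball condition: every boundary point of `D` lies on the boundary sphere of a ball
contained in `D`. -/
def InteriorBall {n : ℕ} (D : Set (Cn n)) : Prop :=
  ∀ p ∈ frontier D, ∃ (c' : Cn n) (r : ℝ), 0 < r ∧ dist p c' = r ∧ ball c' r ⊆ D

lemma exists_frame (hn : 2 ≤ n) {e : Cn n} (he : ‖e‖ = 1) : ∃ F : Fr n, F.e = e := by
  have h1 : (Submodule.span ℂ {e})ᗮ ≠ ⊥ := by
    intro h
    rw [Submodule.orthogonal_eq_bot_iff] at h
    have he0 : e ≠ 0 := by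
      rintro rfl
      rw [norm_zero] at he
      exact zero_ne_one he
    have h2 : Module.finrank ℂ (Submodule.span ℂ {e}) = 1 := finrank_span_singleton he0
    rw [h, finrank_top, finrank_euclideanSpace_fin] at h2
    omega
  obtain ⟨w, hw, hw0⟩ := Submodule.exists_mem_ne_zero_of_ne_bot h1
  rw [Submodule.mem_orthogonal_singleton_iff_inner_right] at hw
  have hn0 : ‖w‖ ≠ 0 := norm_ne_zero_iff.2 hw0
  refine ⟨⟨e, ((‖w‖⁻¹ : ℝ) : ℂ) • w, he, ?_, ?_⟩, rfl⟩
  · rw [norm_smul, Complex.norm_real, norm_inv, norm_norm, inv_mul_cancel₀ hn0]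
  · rw [inner_smul_right, hw, mul_zero]

lemma center_eq [Nontrivial (Cn n)] {p c c' : Cn n} {R r : ℝ} (hr : 0 < r) (hpc : dist p c = R)
    (hpc' : dist p c' = r) (hsub : ball c' r ⊆ closedBall c R) :
    r ≤ R ∧ c' = c + ((R - r : ℝ) : ℂ) • ((((R : ℝ) : ℂ)⁻¹) • (p - c)) := by
  obtain ⟨d, hd⟩ : ∃ d, d = c' - c := ⟨_, rfl⟩
  obtain ⟨q, hq⟩ : ∃ q, q = p - c' := ⟨_, rfl⟩
  have hqd : q + d = p - c := by rw [hq, hd]; abel
  rw [dist_eq_norm, ← hqd] at hpc
  rw [dist_eq_norm, ← hq] at hpc'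
  have hR0 : 0 ≤ R := by rw [← hpc]; exact norm_nonneg _
  have hcl : closedBall c' r ⊆ closedBall c R := by
    rw [← closure_ball c' hr.ne']
    exact closure_minimal hsub isClosed_closedBall
  have hdr : ‖d‖ + r ≤ R := by
    by_cases h0 : d = 0
    · rw [h0, add_zero, hpc'] at hpc
      rw [h0, norm_zero, zero_add, hpc]
    · have hn0 : 0 < ‖d‖ := norm_pos_iff.2 h0
      have h1 : c' + ((r / ‖d‖ : ℝ) : ℂ) • d ∈ closedBall c' r := by
        rw [mem_closedBall, dist_eq_norm, add_sub_cancel_left, norm_smul, Complex.norm_real,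
          Real.norm_eq_abs, abs_of_pos (by positivity), div_mul_cancel₀ _ hn0.ne']
      have h2 := hcl h1
      rw [mem_closedBall, dist_eq_norm] at h2
      have h3 : c' + ((r / ‖d‖ : ℝ) : ℂ) • d - c = ((1 + r / ‖d‖ : ℝ) : ℂ) • d := by
        rw [Complex.ofReal_add, add_smul, Complex.ofReal_one, one_smul, hd]
        abel
      rw [h3, norm_smul, Complex.norm_real, Real.norm_eq_abs, abs_of_pos (by positivity)] at h2
      have h4 : (1 + r / ‖d‖) * ‖d‖ = ‖d‖ + r := by field_simp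
      rw [h4] at h2
      exact h2
  have hle : R ≤ r + ‖d‖ := by
    rw [← hpc, ← hpc']; exact norm_add_le _ _
  have hdn : ‖d‖ = R - r := by linarith
  have hrR : r ≤ R := by linarith [norm_nonneg d]
  have hRpos : 0 < R := by linarith
  have hRc : (R : ℂ) ≠ 0 := by exact_mod_cast hRpos.ne'
  refine ⟨hrR, ?_⟩
  have h1 := @norm_add_sq ℂ (Cn n) _ _ _ q d
  rw [hpc, hpc', hdn] at h1
  have hre : RCLike.re (inner ℂ q d : ℂ) = r * (R - r) := by
    have : RCLike.re (inner ℂ q d : ℂ) = (R ^ 2 - r ^ 2 - (R - r) ^ 2) / 2 := by linarith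
    rw [this]; ring
  have h2 := @norm_sub_sq ℂ (Cn n) _ _ _ (((R - r : ℝ) : ℂ) • q) (((r : ℝ) : ℂ) • d)
  have h3 : RCLike.re (inner ℂ (((R - r : ℝ) : ℂ) • q) (((r : ℝ) : ℂ) • d) : ℂ) =
      (R - r) * r * (r * (R - r)) := by
    rw [inner_smul_left, inner_smul_right, Complex.conj_ofReal, ← mul_assoc,
      ← Complex.ofReal_mul, ← hre]
    exact Complex.re_ofReal_mul _ _
  rw [h3, norm_smul, norm_smul, Complex.norm_real, Complex.norm_real, hdn, hpc',
    Real.norm_eq_abs, Real.norm_eq_abs, abs_of_pos hr, abs_of_nonneg (by linarith)] at h2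
  have h4 : ‖((R - r : ℝ) : ℂ) • q - ((r : ℝ) : ℂ) • d‖ ^ 2 = 0 := by
    rw [h2]; ring
  have h5 : ((R - r : ℝ) : ℂ) • q = ((r : ℝ) : ℂ) • d := by
    rw [← sub_eq_zero, ← norm_eq_zero]
    exact pow_eq_zero_iff (two_ne_zero) |>.1 h4
  have h6 : ((R - r : ℝ) : ℂ) • (p - c) = (R : ℂ) • d := by
    rw [← hqd, smul_add, h5, ← add_smul, ← Complex.ofReal_add]
    congr 2
    ring
  rw [smul_comm, h6, smul_smul, inv_mul_cancel₀ hRc, one_smul, hd]
  abel

/-- the main theorem -/
theorem main (hn : 2 ≤ n) (hD : IsOpen D) (hT : Touching D) :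
    ∃ Φ Ψ : Cn n → ℂ, DifferentiableOn ℂ Φ D ∧ DifferentiableOn ℂ Ψ D ∧
      ∃ φ ∈ PSHneg D, ∃ ψ ∈ PSHneg D,
        (∀ z, φ z = (((Φ z).re : ℝ) : EReal)) ∧ (∀ z, ψ z = (((Ψ z).re : ℝ) : EReal)) ∧
        (∀ z ∈ D, ψ z ≤ res D φ z) ∧ (∀ z ∈ D, roof D ψ (res D φ) z = ψ z) ∧
        ∃ z ∈ D, asymRoof D φ ψ z < roof D ψ (res D φ) z := by
  haveI : Nontrivial (Cn n) := by
    haveI : Nonempty (Fin n) := ⟨⟨0, by omega⟩⟩
    infer_instance
  obtain ⟨p, c, c', R, r, hr, hpc, hpc', hin, hout⟩ := hT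
  obtain ⟨hrR, hc'⟩ := center_eq hr hpc hpc' (hin.trans hout)
  have hR : 0 < R := hr.trans_le hrR
  have he : ‖((((R : ℝ) : ℂ)⁻¹) • (p - c))‖ = 1 := by
    rw [norm_smul, norm_inv, Complex.norm_real, Real.norm_eq_abs, abs_of_pos hR,
      ← dist_eq_norm, hpc, inv_mul_cancel₀ hR.ne']
  obtain ⟨F, hF⟩ := exists_frame hn he
  rw [← hF] at hc'
  have hout' : D ⊆ ball c R := by
    have h1 := interior_maximal hout hD
    rwa [interior_closedBall c hR.ne'] at h1
  have hne : D.Nonempty := ⟨c', hin (mem_ball_self hr)⟩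
  have hP : Differentiable ℂ (PP F c R) := differentiable_PP F c R
  have hm : MapsTo (PP F c R) D B2 := fun z hz => PP_mem F (hout' hz)
  have hom : DifferentiableOn ℂ (fun z => om (PP F c R z)) D :=
    differentiableOn_om.comp hP.differentiableOn hm
  have hze : DifferentiableOn ℂ (fun z => ze (PP F c R z)) D :=
    differentiableOn_ze.comp hP.differentiableOn hm
  have hΦ : DifferentiableOn ℂ (fun z => -(om (PP F c R z) - ze (PP F c R z) ^ 2)) D :=
    (hom.sub (hze.pow 2)).neg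
  have hΨ : DifferentiableOn ℂ (fun z => -(om (PP F c R z) + ze (PP F c R z) ^ 2)) D :=
    (hom.add (hze.pow 2)).neg
  have hφmem : (fun z => ((phip (PP F c R z) : ℝ) : EReal)) ∈ PSHneg D := by
    apply mem_neg hne
    · exact isPSH_re hD hΦ
    · intro z hz
      exact phip_le.trans (Om_neg (hm hz)).le
  have hψmem : (fun z => ((phim (PP F c R z) : ℝ) : EReal)) ∈ PSHneg D := by
    apply mem_neg hne
    · exact isPSH_re hD hΨ
    · intro z hz
      exact phim_le.trans (Om_neg (hm hz)).le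
  have hψc : ContinuousOn (fun z => phim (PP F c R z)) D :=
    Complex.continuous_re.comp_continuousOn hΨ.continuousOn
  have hle : ∀ z ∈ D, ((phim (PP F c R z) : ℝ) : EReal) ≤
      res D (fun z => ((phip (PP F c R z) : ℝ) : EReal)) z := by
    intro z hz
    refine le_trans ?_ (Om_le_res_pull hD hP hm hz)
    rw [EReal.coe_le_coe_iff]
    exact phim_le
  have hroof : ∀ z ∈ D, roof D (fun z => ((phim (PP F c R z) : ℝ) : EReal))
      (res D (fun z => ((phip (PP F c R z) : ℝ) : EReal))) z =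
      ((phim (PP F c R z) : ℝ) : EReal) := by
    intro z hz
    apply le_antisymm
    · exact env_le hD hψc (fun w _ hw t ht => (hw t ht).trans (min_le_left _ _)) hz
    · exact le_env hψmem.1 (fun y hy => le_min le_rfl (hle y hy)) z
  refine ⟨_, _, hΦ, hΨ, _, hφmem, _, hψmem, fun z => rfl, fun z => rfl, hle, hroof, ?_⟩
  obtain ⟨x, hx, hlt⟩ := point F hr hrR hc'
  refine ⟨x, hin hx, ?_⟩
  rw [hroof x (hin hx)]
  refine lt_of_le_of_lt (b := ((gg F c' r R x : ℝ) : EReal)) ?_ (EReal.coe_lt_coe_iff.2 hlt)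
  unfold asymRoof
  apply reg_le isOpen_ball (continuousOn_gg F) _ hx
  intro y hy
  apply iSup_le
  intro C
  unfold roof env
  apply reg_le isOpen_ball (continuousOn_gg F) _ hy
  intro w hw
  apply sSup_le
  rintro t ⟨v, hv, hvle, rfl⟩
  have hmin : ∀ t ∈ D, v t ≤
      ((min (phip (PP F c R t)) (phim (PP F c R t)) + |C| : ℝ) : EReal) := by
    intro t ht
    rcases min_choice (phip (PP F c R t)) (phim (PP F c R t)) with h | h
    · refine (hvle t ht).trans ((min_le_right _ _).trans ?_)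
      beta_reduce
      rw [h, ← EReal.coe_add, EReal.coe_le_coe_iff]
      linarith [le_abs_self C]
    · refine (hvle t ht).trans ((min_le_left _ _).trans ?_)
      rw [h, EReal.coe_le_coe_iff]
      linarith [abs_nonneg C]
  exact bound F hr hrR hc' hin hv hmin
    (fun t ht => (hvle t ht).trans (min_le_left _ _)) hw

/-- the interior ball condition gives touching balls -/
theorem touching_of_interiorBall (hn : 2 ≤ n) (hD : IsOpen D) (hne : D.Nonempty)
    (hb : Bornology.IsBounded D) (hI : InteriorBall D) : Touching D := by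
  haveI : Nontrivial (Cn n) := by
    haveI : Nonempty (Fin n) := ⟨⟨0, by omega⟩⟩
    infer_instance
  have hK : IsCompact (closure D) := hb.isCompact_closure
  obtain ⟨p, hp, hmax⟩ := hK.exists_isMaxOn (hne.closure) continuous_norm.continuousOn
  have hout : D ⊆ closedBall 0 ‖p‖ := by
    intro z hz
    rw [mem_closedBall_zero_iff]
    exact hmax (subset_closure hz)
  have hpD : p ∉ D := by
    intro hpD
    have h1 := interior_maximal hout hD hpD
    rcases eq_or_ne ‖p‖ 0 with h0 | h0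
    · rw [h0, closedBall_zero, interior_singleton] at h1
      exact h1
    · rw [interior_closedBall _ h0, mem_ball_zero_iff] at h1
      exact lt_irrefl _ h1
  have hfr : p ∈ frontier D := by
    rw [hD.frontier_eq]; exact ⟨hp, hpD⟩
  obtain ⟨c', r, hr, hdr, hin⟩ := hI p hfr
  exact ⟨p, 0, c', ‖p‖, r, hr, dist_zero_right p, hdr, hin, hout⟩

end KS6_84.Roof
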