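import Pool.Agent.KS6_84.Roof.Slice

/-!
# The bound near the pole, and the geometry of touching balls
-/

set_option autoImplicit false

open Metric Set Filter Topology

namespace KS6_84.Roof

open Q72.Psh Q72.Res

variable {n : ℕ} {D : Set (Cn n)}

/-- first coordinate in the inner ball -/
noncomputable def al (F : Fr n) (c' : Cn n) (r : ℝ) (x : Cn n) : ℂ := inner ℂ F.e (x - c') / r

/-- second coordinate in the inner ball -/
noncomputable def be (F : Fr n) (c' : Cn n) (r : ℝ) (x : Cn n) : ℂ := inner ℂ F.f (x - c') / r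

/-- the slice through `x` -/
noncomputable def aa (F : Fr n) (c' : Cn n) (r : ℝ) (x : Cn n) : Cn n :=
  (1 - al F c' r x)⁻¹ • (((r : ℂ)⁻¹ • (x - c')) - al F c' r x • F.e - be F c' r x • F.f)

/-- the coordinates of `x` in its slice -/
noncomputable def yy (F : Fr n) (c' : Cn n) (r : ℝ) (x : Cn n) : Cn 2 :=
  !₂[((1 + ‖aa F c' r x‖ ^ 2 : ℝ) : ℂ) * al F c' r x - ((‖aa F c' r x‖ ^ 2 : ℝ) : ℂ),
    ((√(1 + ‖aa F c' r x‖ ^ 2) : ℝ) : ℂ) * be F c' r x]

/-- the bound -/
noncomputable def gg (F : Fr n) (c' : Cn n) (r R : ℝ) (x : Cn n) : ℝ :=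
  3 / 2 * Om (yy F c' r x) - ((1 + ‖aa F c' r x‖ ^ 2) / (r / R) - (1 + ‖aa F c' r x‖ ^ 2)) *
    (om (yy F c' r x)).re

lemma al_lt (F : Fr n) {c' : Cn n} {r : ℝ} {x : Cn n} (hx : x ∈ ball c' r) :
    ‖al F c' r x‖ < 1 := by
  rw [mem_ball, dist_eq_norm] at hx
  have hr : 0 < r := (norm_nonneg _).trans_lt hx
  unfold al
  rw [norm_div, Complex.norm_real, Real.norm_eq_abs, abs_of_pos hr, div_lt_one hr]
  have h := norm_inner_le_norm (𝕜 := ℂ) F.e (x - c')
  rw [F.he, one_mul] at h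
  linarith

lemma one_sub_al (F : Fr n) {c' : Cn n} {r : ℝ} {x : Cn n} (hx : x ∈ ball c' r) :
    1 - al F c' r x ≠ 0 := by
  intro h
  have h1 := al_lt F hx
  have h2 : al F c' r x = 1 := by linear_combination -h
  rw [h2, norm_one] at h1
  exact lt_irrefl _ h1

lemma inner_e_aa (F : Fr n) {c' : Cn n} {r : ℝ} (x : Cn n) :
    inner ℂ F.e (aa F c' r x) = 0 := by
  obtain ⟨w, hw⟩ : ∃ w, w = x - c' := ⟨_, rfl⟩
  unfold aa be al
  rw [← hw]
  simp only [inner_sub_right, inner_smul_right, F.ee, F.hef]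
  ring

lemma inner_f_aa (F : Fr n) {c' : Cn n} {r : ℝ} (x : Cn n) :
    inner ℂ F.f (aa F c' r x) = 0 := by
  obtain ⟨w, hw⟩ : ∃ w, w = x - c' := ⟨_, rfl⟩
  unfold aa be al
  rw [← hw]
  simp only [inner_sub_right, inner_smul_right, F.ff, F.hfe]
  ring

lemma GG_yy (F : Fr n) {c' : Cn n} {r : ℝ} {x : Cn n} (hx : x ∈ ball c' r) :
    GG F c' r (aa F c' r x) (yy F c' r x) = x := by
  have hr : 0 < r := by
    rw [mem_ball] at hx
    exact dist_nonneg.trans_lt hx
  have hrc : (r : ℂ) ≠ 0 := by exact_mod_cast hr.ne'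
  have hK : 0 < 1 + ‖aa F c' r x‖ ^ 2 := by positivity
  have hKc : ((1 + ‖aa F c' r x‖ ^ 2 : ℝ) : ℂ) ≠ 0 := by exact_mod_cast hK.ne'
  have hsK : 0 < √(1 + ‖aa F c' r x‖ ^ 2) := Real.sqrt_pos.2 hK
  have hsKc : ((√(1 + ‖aa F c' r x‖ ^ 2) : ℝ) : ℂ) ≠ 0 := by exact_mod_cast hsK.ne'
  have ht : ((1 + ‖aa F c' r x‖ ^ 2 : ℝ) : ℂ) = 1 + ((‖aa F c' r x‖ ^ 2 : ℝ) : ℂ) := by
    push_cast; ring
  have y0 : yy F c' r x 0 = ((1 + ‖aa F c' r x‖ ^ 2 : ℝ) : ℂ) * al F c' r x -
    ((‖aa F c' r x‖ ^ 2 : ℝ) : ℂ) := rfl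
  have y1 : yy F c' r x 1 = ((√(1 + ‖aa F c' r x‖ ^ 2) : ℝ) : ℂ) * be F c' r x := rfl
  have h0 : (yy F c' r x 0 + ((‖aa F c' r x‖ ^ 2 : ℝ) : ℂ)) /
      ((1 + ‖aa F c' r x‖ ^ 2 : ℝ) : ℂ) = al F c' r x := by
    rw [y0, sub_add_cancel, mul_div_cancel_left₀ _ hKc]
  have h1 : yy F c' r x 1 / ((√(1 + ‖aa F c' r x‖ ^ 2) : ℝ) : ℂ) = be F c' r x := by
    rw [y1, mul_div_cancel_left₀ _ hsKc]
  have h2 : (1 - yy F c' r x 0) / ((1 + ‖aa F c' r x‖ ^ 2 : ℝ) : ℂ) = 1 - al F c' r x := by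
    rw [div_eq_iff hKc, y0, ht]
    ring
  have h3 : (1 - al F c' r x) • aa F c' r x =
      ((r : ℂ)⁻¹ • (x - c')) - al F c' r x • F.e - be F c' r x • F.f := by
    unfold aa
    rw [smul_smul, mul_inv_cancel₀ (one_sub_al F hx), one_smul]
  unfold GG
  rw [h0, h1, h2, h3]
  have h4 : al F c' r x • F.e + be F c' r x • F.f +
      ((r : ℂ)⁻¹ • (x - c') - al F c' r x • F.e - be F c' r x • F.f) = (r : ℂ)⁻¹ • (x - c') := by
    abel
  rw [h4, smul_smul, mul_inv_cancel₀ hrc, one_smul]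
  abel

lemma yy_mem (F : Fr n) {c' : Cn n} {r : ℝ} {x : Cn n} (hx : x ∈ ball c' r) :
    yy F c' r x ∈ B2 := by
  apply mem_of_GG_mem F (c' := c') (r := r) (inner_e_aa F x) (inner_f_aa F x)
  rw [GG_yy F hx]
  exact hx

/-- the upper bound in the inner ball -/
theorem bound (F : Fr n) {c c' : Cn n} {r R : ℝ} (hr : 0 < r) (hrR : r ≤ R)
    (hc' : c' = c + ((R - r : ℝ) : ℂ) • F.e) (hin : ball c' r ⊆ D) {v : Cn n → EReal}
    (hv : IsPSH D v) {C : ℝ}
    (h1 : ∀ z ∈ D, v z ≤ ((min (phip (PP F c R z)) (phim (PP F c R z)) + C : ℝ) : EReal))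
    (h2 : ∀ z ∈ D, v z ≤ ((phim (PP F c R z) : ℝ) : EReal)) {x : Cn n} (hx : x ∈ ball c' r) :
    v x ≤ ((gg F c' r R x : ℝ) : EReal) := by
  have h := core F hr hrR hc' hin hv h1 h2 (inner_e_aa F (c' := c') (r := r) x)
    (inner_f_aa F (c' := c') (r := r) x) (yy_mem F hx)
  rw [GG_yy F hx] at h
  exact h

lemma continuousOn_gg (F : Fr n) {c' : Cn n} {r R : ℝ} :
    ContinuousOn (gg F c' r R) (ball c' r) := by
  have hal : Continuous (al F c' r) := by unfold al; fun_prop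
  have hbe : Continuous (be F c' r) := by unfold be; fun_prop
  have haa : ContinuousOn (aa F c' r) (ball c' r) := by
    have h1 : ContinuousOn (fun x => (1 - al F c' r x)⁻¹) (ball c' r) :=
      (continuousOn_const.sub hal.continuousOn).inv₀ (fun x hx => one_sub_al F hx)
    have h2 : Continuous (fun x => ((r : ℂ)⁻¹ • (x - c')) - al F c' r x • F.e -
      be F c' r x • F.f) := by fun_prop
    exact h1.smul h2.continuousOn
  have hn2 : ContinuousOn (fun x => ‖aa F c' r x‖ ^ 2) (ball c' r) := haa.norm.pow 2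
  have hyy : ContinuousOn (yy F c' r) (ball c' r) := by
    unfold yy
    apply (PiLp.continuous_toLp 2 _).comp_continuousOn
    rw [continuousOn_pi]
    intro i
    fin_cases i
    · exact ((Complex.continuous_ofReal.comp_continuousOn (continuousOn_const.add hn2)).mul
        hal.continuousOn).sub (Complex.continuous_ofReal.comp_continuousOn hn2)
    · exact (Complex.continuous_ofReal.comp_continuousOn
        (Real.continuous_sqrt.comp_continuousOn (continuousOn_const.add hn2))).mul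
        hbe.continuousOn
  have hmaps : MapsTo (yy F c' r) (ball c' r) B2 := fun x hx => yy_mem F hx
  have hOm : ContinuousOn (fun x => Om (yy F c' r x)) (ball c' r) :=
    continuousOn_Om.comp hyy hmaps
  have hom : ContinuousOn (fun x => (om (yy F c' r x)).re) (ball c' r) :=
    Complex.continuous_re.comp_continuousOn (differentiableOn_om.continuousOn.comp hyy hmaps)
  unfold gg
  exact (continuousOn_const.mul hOm).sub ((((continuousOn_const.add hn2).div_const _).sub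
    (continuousOn_const.add hn2)).mul hom)

/-- the point at which the two sides differ -/
lemma point (F : Fr n) {c c' : Cn n} {r R : ℝ} (hr : 0 < r) (hrR : r ≤ R)
    (hc' : c' = c + ((R - r : ℝ) : ℂ) • F.e) :
    ∃ x ∈ ball c' r, gg F c' r R x < phim (PP F c R x) := by
  have hR : 0 < R := hr.trans_le hrR
  obtain ⟨s, hs⟩ : ∃ s : ℝ, s = (2 - r / R) / (2 + r / R) := ⟨_, rfl⟩
  have hρ : 0 < r / R := by positivity
  have hρ1 : r / R ≤ 1 := (div_le_one hR).2 hrR
  have hs0 : 0 < s := by rw [hs]; apply div_pos <;> linarith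
  have hs1 : s < 1 := by rw [hs, div_lt_one (by linarith)]; linarith
  have hrc : (r : ℂ) ≠ 0 := by exact_mod_cast hr.ne'
  set x : Cn n := c' + ((r * s : ℝ) : ℂ) • F.e with hx
  have hxb : x ∈ ball c' r := by
    rw [mem_ball, dist_eq_norm, hx, add_sub_cancel_left, norm_smul, F.he, mul_one,
      Complex.norm_real, Real.norm_eq_abs, abs_of_pos (by positivity)]
    nlinarith
  have hal : al F c' r x = (s : ℂ) := by
    unfold al
    rw [hx, add_sub_cancel_left, inner_smul_right, F.ee, Complex.ofReal_mul]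
    field_simp
  have hbe : be F c' r x = 0 := by
    unfold be
    rw [hx, add_sub_cancel_left, inner_smul_right, F.hfe]
    simp
  have haa : aa F c' r x = 0 := by
    unfold aa
    rw [hal, hbe, hx, add_sub_cancel_left, smul_smul, Complex.ofReal_mul]
    have : (r : ℂ)⁻¹ * ((r : ℂ) * (s : ℂ)) = s := by field_simp
    rw [this]
    simp
  have y0 : yy F c' r x 0 = (s : ℂ) := by
    have : yy F c' r x 0 = ((1 + ‖aa F c' r x‖ ^ 2 : ℝ) : ℂ) * al F c' r x -
      ((‖aa F c' r x‖ ^ 2 : ℝ) : ℂ) := rfl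
    rw [this, haa, hal]; simp
  have y1 : yy F c' r x 1 = 0 := by
    have : yy F c' r x 1 = ((√(1 + ‖aa F c' r x‖ ^ 2) : ℝ) : ℂ) * be F c' r x := rfl
    rw [this, hbe, mul_zero]
  have hom : om (yy F c' r x) = ((2 / (r / R) : ℝ) : ℂ) := by
    unfold om
    rw [y0, ← Complex.ofReal_one, ← Complex.ofReal_add, ← Complex.ofReal_sub,
      ← Complex.ofReal_div]
    congr 1
    have h1 : 1 - s = 2 * (r / R) / (2 + r / R) := by rw [hs]; field_simp; ring
    have h2 : 1 + s = 4 / (2 + r / R) := by rw [hs]; field_simp; ring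
    rw [h1, h2]
    field_simp
    ring
  have hze : ze (yy F c' r x) = 0 := by
    unfold ze; rw [y1, zero_div]
  refine ⟨x, hxb, ?_⟩
  have h1 := phim_PG F hr hR hc' (inner_e_aa F (c' := c') (r := r) x) (inner_f_aa F x)
    (yy_mem F hxb)
  rw [GG_yy F hxb, haa] at h1
  rw [h1]
  unfold gg Om phim
  rw [haa, hom, hze]
  simp only [norm_zero, ne_eq, OfNat.ofNat_ne_zero, not_false_eq_true, zero_pow, add_zero,
    Complex.ofReal_re, one_mul]
  have h3 : 1 ≤ 1 / (r / R) := by rw [le_div_iff₀ hρ]; linarith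
  have h4 : 2 / (r / R) = 2 * (1 / (r / R)) := by ring
  rw [h4]
  nlinarith

end KS6_84.Roof
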