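import Pool.Agent.KS6_84.Roof.Tools

/-!
# Two dimensional slices through the pole
-/

set_option autoImplicit false

open Metric Set Filter Topology

namespace KS6_84.Roof

open Q72.Psh Q72.Res

variable {n : ℕ} {D : Set (Cn n)}

/-- an orthonormal pair -/
structure Fr (n : ℕ) where
  /-- first vector -/
  e : Cn n
  /-- second vector -/
  f : Cn n
  he : ‖e‖ = 1
  hf : ‖f‖ = 1
  hef : inner ℂ e f = 0

lemma Fr.ee (F : Fr n) : inner ℂ F.e F.e = 1 := by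
  rw [inner_self_eq_norm_sq_to_K, F.he]; simp

lemma Fr.ff (F : Fr n) : inner ℂ F.f F.f = 1 := by
  rw [inner_self_eq_norm_sq_to_K, F.hf]; simp

lemma Fr.hfe (F : Fr n) : inner ℂ F.f F.e = 0 := by
  rw [← inner_conj_symm, F.hef]; simp

lemma norm_dec (F : Fr n) {a : Cn n} (hea : inner ℂ F.e a = 0) (hfa : inner ℂ F.f a = 0)
    (α β γ : ℂ) :
    ‖α • F.e + β • F.f + γ • a‖ ^ 2 = ‖α‖ ^ 2 + ‖β‖ ^ 2 + ‖γ‖ ^ 2 * ‖a‖ ^ 2 := by
  have h1 : inner ℂ (α • F.e + β • F.f) (γ • a) = 0 := by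
    simp [inner_add_left, inner_smul_left, inner_smul_right, hea, hfa]
  have h2 : inner ℂ (α • F.e) (β • F.f) = 0 := by
    simp [inner_smul_left, inner_smul_right, F.hef]
  have h3 := norm_add_sq_eq_norm_sq_add_norm_sq_of_inner_eq_zero _ _ h1
  have h4 := norm_add_sq_eq_norm_sq_add_norm_sq_of_inner_eq_zero _ _ h2
  rw [norm_smul γ] at h3
  rw [norm_smul, norm_smul, F.he, F.hf] at h4
  linear_combination h3 + h4

/-- the projection -/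
noncomputable def PP (F : Fr n) (c : Cn n) (R : ℝ) (z : Cn n) : Cn 2 :=
  !₂[inner ℂ F.e (z - c) / R, inner ℂ F.f (z - c) / R]

lemma PP_zero (F : Fr n) (c : Cn n) (R : ℝ) (z : Cn n) : PP F c R z 0 = inner ℂ F.e (z - c) / R :=
  rfl
lemma PP_one (F : Fr n) (c : Cn n) (R : ℝ) (z : Cn n) : PP F c R z 1 = inner ℂ F.f (z - c) / R :=
  rfl

lemma differentiable_PP (F : Fr n) (c : Cn n) (R : ℝ) : Differentiable ℂ (PP F c R) := by
  rw [differentiable_euclidean]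
  intro i
  fin_cases i
  · change Differentiable ℂ (fun z : Cn n => PP F c R z 0)
    have e : (fun z : Cn n => PP F c R z 0) =
        fun z => (R : ℂ)⁻¹ * innerSL ℂ F.e (z - c) := by
      funext z; rw [PP_zero, div_eq_inv_mul]; rfl
    rw [e]; fun_prop
  · change Differentiable ℂ (fun z : Cn n => PP F c R z 1)
    have e : (fun z : Cn n => PP F c R z 1) =
        fun z => (R : ℂ)⁻¹ * innerSL ℂ F.f (z - c) := by
      funext z; rw [PP_one, div_eq_inv_mul]; rfl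
    rw [e]; fun_prop

lemma bessel (F : Fr n) (w : Cn n) :
    ‖inner ℂ F.e w‖ ^ 2 + ‖inner ℂ F.f w‖ ^ 2 ≤ ‖w‖ ^ 2 := by
  set a : Cn n := w - inner ℂ F.e w • F.e - inner ℂ F.f w • F.f with ha
  have hea : inner ℂ F.e a = 0 := by
    rw [ha]; simp only [inner_sub_right, inner_smul_right, F.ee, F.hef]; ring
  have hfa : inner ℂ F.f a = 0 := by
    rw [ha]; simp only [inner_sub_right, inner_smul_right, F.ff, F.hfe]; ring
  have h := norm_dec F hea hfa (inner ℂ F.e w) (inner ℂ F.f w) 1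
  have h1 : inner ℂ F.e w • F.e + inner ℂ F.f w • F.f + (1 : ℂ) • a = w := by
    rw [ha, one_smul]; abel
  rw [h1] at h
  have h2 : 0 ≤ ‖(1 : ℂ)‖ ^ 2 * ‖a‖ ^ 2 := by positivity
  linarith

lemma PP_mem (F : Fr n) {c : Cn n} {R : ℝ} {z : Cn n} (hz : z ∈ ball c R) : PP F c R z ∈ B2 := by
  rw [mem_ball, dist_eq_norm] at hz
  have hR : 0 < R := (norm_nonneg _).trans_lt hz
  rw [mem_B2, PP_zero, PP_one, norm_div, norm_div, div_pow, div_pow, ← add_div,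
    Complex.norm_real, Real.norm_eq_abs, sq_abs, div_lt_one (by positivity)]
  have h := bessel F (z - c)
  have h2 : ‖z - c‖ ^ 2 < R ^ 2 := by gcongr
  linarith

/-- the slice -/
noncomputable def GG (F : Fr n) (c' : Cn n) (r : ℝ) (a : Cn n) (y : Cn 2) : Cn n :=
  c' + (r : ℂ) • (((y 0 + ((‖a‖ ^ 2 : ℝ) : ℂ)) / ((1 + ‖a‖ ^ 2 : ℝ) : ℂ)) • F.e +
    (y 1 / ((√(1 + ‖a‖ ^ 2) : ℝ) : ℂ)) • F.f + ((1 - y 0) / ((1 + ‖a‖ ^ 2 : ℝ) : ℂ)) • a)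

lemma differentiable_GG (F : Fr n) (c' : Cn n) (r : ℝ) (a : Cn n) :
    Differentiable ℂ (GG F c' r a) := by
  have h0 : Differentiable ℂ (fun z : Cn 2 => z 0) := fun z => differentiableAt_coord 0 z
  have h1 : Differentiable ℂ (fun z : Cn 2 => z 1) := fun z => differentiableAt_coord 1 z
  unfold GG
  fun_prop

lemma norm_GG (F : Fr n) {c' : Cn n} {r : ℝ} {a : Cn n} (hea : inner ℂ F.e a = 0)
    (hfa : inner ℂ F.f a = 0) (y : Cn 2) :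
    ‖GG F c' r a y - c'‖ ^ 2 = r ^ 2 * ((‖y‖ ^ 2 + ‖a‖ ^ 2) / (1 + ‖a‖ ^ 2)) := by
  have hK : 0 < 1 + ‖a‖ ^ 2 := by positivity
  have h1 : GG F c' r a y - c' = (r : ℂ) • (((y 0 + ((‖a‖ ^ 2 : ℝ) : ℂ)) /
      ((1 + ‖a‖ ^ 2 : ℝ) : ℂ)) • F.e + (y 1 / ((√(1 + ‖a‖ ^ 2) : ℝ) : ℂ)) • F.f +
      ((1 - y 0) / ((1 + ‖a‖ ^ 2 : ℝ) : ℂ)) • a) := by
    unfold GG; rw [add_sub_cancel_left]
  rw [h1, norm_smul, mul_pow, norm_dec F hea hfa, Complex.norm_real, Real.norm_eq_abs, sq_abs]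
  congr 1
  rw [norm_div, norm_div, norm_div, div_pow, div_pow, div_pow, Complex.norm_real,
    Complex.norm_real, Real.norm_eq_abs, Real.norm_eq_abs, sq_abs, sq_abs, Real.sq_sqrt hK.le,
    norm_sq2, norm_sq_re_im (y 0 + _), norm_sq_re_im (1 - y 0), norm_sq_re_im (y 0)]
  simp only [Complex.add_re, Complex.add_im, Complex.sub_re, Complex.sub_im, Complex.one_re,
    Complex.one_im, Complex.ofReal_re, Complex.ofReal_im]
  field_simp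
  ring

lemma GG_mem (F : Fr n) {c' : Cn n} {r : ℝ} (hr : 0 < r) {a : Cn n} (hea : inner ℂ F.e a = 0)
    (hfa : inner ℂ F.f a = 0) {y : Cn 2} (hy : y ∈ B2) : GG F c' r a y ∈ ball c' r := by
  have hK : 0 < 1 + ‖a‖ ^ 2 := by positivity
  have hy1 : ‖y‖ ^ 2 < 1 := by rw [norm_sq2]; exact mem_B2.1 hy
  rw [mem_ball, dist_eq_norm]
  have h := norm_GG F (c' := c') (r := r) hea hfa y
  have h2 : (‖y‖ ^ 2 + ‖a‖ ^ 2) / (1 + ‖a‖ ^ 2) < 1 := by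
    rw [div_lt_one hK]; linarith
  have h3 : ‖GG F c' r a y - c'‖ ^ 2 < r ^ 2 := by
    rw [h]
    have : 0 < r ^ 2 := by positivity
    nlinarith
  exact lt_of_pow_lt_pow_left₀ 2 hr.le h3

lemma mem_of_GG_mem (F : Fr n) {c' : Cn n} {r : ℝ} {a : Cn n} (hea : inner ℂ F.e a = 0)
    (hfa : inner ℂ F.f a = 0) {y : Cn 2} (hy : GG F c' r a y ∈ ball c' r) : y ∈ B2 := by
  have hK : 0 < 1 + ‖a‖ ^ 2 := by positivity
  rw [mem_ball, dist_eq_norm] at hy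
  have hr : 0 < r := (norm_nonneg _).trans_lt hy
  have h := norm_GG F (c' := c') (r := r) hea hfa y
  have h3 : ‖GG F c' r a y - c'‖ ^ 2 < r ^ 2 := by gcongr
  rw [h] at h3
  have h4 : (‖y‖ ^ 2 + ‖a‖ ^ 2) / (1 + ‖a‖ ^ 2) < 1 := by
    by_contra hc
    push Not at hc
    have : 0 < r ^ 2 := by positivity
    nlinarith
  rw [div_lt_one hK] at h4
  rw [mem_B2, ← norm_sq2]
  linarith

lemma om_eq {z : Cn 2} (h : 1 - z 0 ≠ 0) : om z = 2 / (1 - z 0) - 1 := by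
  unfold om; field_simp; ring

/-- the relation between the Siegel coordinates -/
lemma PP_GG (F : Fr n) {c c' : Cn n} {r R : ℝ} (hr : 0 < r) (hR : 0 < R)
    (hc' : c' = c + ((R - r : ℝ) : ℂ) • F.e) {a : Cn n} (hea : inner ℂ F.e a = 0)
    (hfa : inner ℂ F.f a = 0) {y : Cn 2} (hy : y ∈ B2) :
    om (PP F c R (GG F c' r a y)) =
      (((1 + ‖a‖ ^ 2) / (r / R) : ℝ) : ℂ) * (om y + 1) - 1 ∧
    ze (PP F c R (GG F c' r a y)) = ((√(1 + ‖a‖ ^ 2) : ℝ) : ℂ) * ze y := by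
  have hK : 0 < 1 + ‖a‖ ^ 2 := by positivity
  have hKc : ((1 + ‖a‖ ^ 2 : ℝ) : ℂ) ≠ 0 := by exact_mod_cast hK.ne'
  have hsK : 0 < √(1 + ‖a‖ ^ 2) := Real.sqrt_pos.2 hK
  have hsKc : ((√(1 + ‖a‖ ^ 2) : ℝ) : ℂ) ≠ 0 := by exact_mod_cast hsK.ne'
  have hsq : ((√(1 + ‖a‖ ^ 2) : ℝ) : ℂ) ^ 2 = ((1 + ‖a‖ ^ 2 : ℝ) : ℂ) := by
    rw [← Complex.ofReal_pow, Real.sq_sqrt hK.le]
  have hrc : (r : ℂ) ≠ 0 := by exact_mod_cast hr.ne'
  have hRc : (R : ℂ) ≠ 0 := by exact_mod_cast hR.ne'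
  have hy0 := one_sub_ne hy
  have e0 : inner ℂ F.e (GG F c' r a y - c) = ((R - r : ℝ) : ℂ) + (r : ℂ) *
      ((y 0 + ((‖a‖ ^ 2 : ℝ) : ℂ)) / ((1 + ‖a‖ ^ 2 : ℝ) : ℂ)) := by
    have : GG F c' r a y - c = ((R - r : ℝ) : ℂ) • F.e + (r : ℂ) • (((y 0 + ((‖a‖ ^ 2 : ℝ) : ℂ)) /
      ((1 + ‖a‖ ^ 2 : ℝ) : ℂ)) • F.e + (y 1 / ((√(1 + ‖a‖ ^ 2) : ℝ) : ℂ)) • F.f +
      ((1 - y 0) / ((1 + ‖a‖ ^ 2 : ℝ) : ℂ)) • a) := by
      unfold GG; rw [hc']; abel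
    rw [this]
    simp only [inner_add_right, inner_smul_right, F.ee, F.hef, hea]
    ring
  have e1 : inner ℂ F.f (GG F c' r a y - c) = (r : ℂ) *
      (y 1 / ((√(1 + ‖a‖ ^ 2) : ℝ) : ℂ)) := by
    have : GG F c' r a y - c = ((R - r : ℝ) : ℂ) • F.e + (r : ℂ) • (((y 0 + ((‖a‖ ^ 2 : ℝ) : ℂ)) /
      ((1 + ‖a‖ ^ 2 : ℝ) : ℂ)) • F.e + (y 1 / ((√(1 + ‖a‖ ^ 2) : ℝ) : ℂ)) • F.f +
      ((1 - y 0) / ((1 + ‖a‖ ^ 2 : ℝ) : ℂ)) • a) := by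
      unfold GG; rw [hc']; abel
    rw [this]
    simp only [inner_add_right, inner_smul_right, F.ff, F.hfe, hfa]
    ring
  have ht : ((1 + ‖a‖ ^ 2 : ℝ) : ℂ) = 1 + ((‖a‖ ^ 2 : ℝ) : ℂ) := by push_cast; ring
  have h1 : 1 - PP F c R (GG F c' r a y) 0 =
      (r : ℂ) / R * ((1 - y 0) / ((1 + ‖a‖ ^ 2 : ℝ) : ℂ)) := by
    rw [PP_zero, e0, Complex.ofReal_sub]
    field_simp
    rw [ht]
    ring
  have h1' : 1 - PP F c R (GG F c' r a y) 0 ≠ 0 := by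
    rw [h1]
    exact mul_ne_zero (div_ne_zero hrc hRc) (div_ne_zero hy0 hKc)
  refine ⟨?_, ?_⟩
  · rw [om_eq h1', om_eq hy0, h1]
    rw [Complex.ofReal_div, Complex.ofReal_div]
    field_simp
    ring
  · unfold ze
    rw [h1, PP_one, e1, ← hsq]
    field_simp

lemma phip_PG (F : Fr n) {c c' : Cn n} {r R : ℝ} (hr : 0 < r) (hR : 0 < R)
    (hc' : c' = c + ((R - r : ℝ) : ℂ) • F.e) {a : Cn n} (hea : inner ℂ F.e a = 0)
    (hfa : inner ℂ F.f a = 0) {y : Cn 2} (hy : y ∈ B2) :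
    phip (PP F c R (GG F c' r a y)) = (1 + ‖a‖ ^ 2) * phip y -
      ((1 + ‖a‖ ^ 2) / (r / R) - (1 + ‖a‖ ^ 2)) * (om y).re - ((1 + ‖a‖ ^ 2) / (r / R) - 1) := by
  obtain ⟨h1, h2⟩ := PP_GG F hr hR hc' hea hfa hy
  have hK : 0 < 1 + ‖a‖ ^ 2 := by positivity
  have hsq : ((√(1 + ‖a‖ ^ 2) : ℝ) : ℂ) ^ 2 = ((1 + ‖a‖ ^ 2 : ℝ) : ℂ) := by
    rw [← Complex.ofReal_pow, Real.sq_sqrt hK.le]
  unfold phip
  rw [h1, h2, mul_pow, hsq, Complex.sub_re, Complex.sub_re, Complex.re_ofReal_mul,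
    Complex.re_ofReal_mul, Complex.add_re, Complex.one_re, Complex.sub_re]
  ring

lemma phim_PG (F : Fr n) {c c' : Cn n} {r R : ℝ} (hr : 0 < r) (hR : 0 < R)
    (hc' : c' = c + ((R - r : ℝ) : ℂ) • F.e) {a : Cn n} (hea : inner ℂ F.e a = 0)
    (hfa : inner ℂ F.f a = 0) {y : Cn 2} (hy : y ∈ B2) :
    phim (PP F c R (GG F c' r a y)) = (1 + ‖a‖ ^ 2) * phim y -
      ((1 + ‖a‖ ^ 2) / (r / R) - (1 + ‖a‖ ^ 2)) * (om y).re - ((1 + ‖a‖ ^ 2) / (r / R) - 1) := by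
  obtain ⟨h1, h2⟩ := PP_GG F hr hR hc' hea hfa hy
  have hK : 0 < 1 + ‖a‖ ^ 2 := by positivity
  have hsq : ((√(1 + ‖a‖ ^ 2) : ℝ) : ℂ) ^ 2 = ((1 + ‖a‖ ^ 2 : ℝ) : ℂ) := by
    rw [← Complex.ofReal_pow, Real.sq_sqrt hK.le]
  unfold phim
  rw [h1, h2, mul_pow, hsq, Complex.add_re, Complex.sub_re, Complex.re_ofReal_mul,
    Complex.re_ofReal_mul, Complex.add_re, Complex.one_re, Complex.add_re]
  ring

/-- the upper bound on a slice -/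
theorem core (F : Fr n) {c c' : Cn n} {r R : ℝ} (hr : 0 < r) (hrR : r ≤ R)
    (hc' : c' = c + ((R - r : ℝ) : ℂ) • F.e) (hin : ball c' r ⊆ D) {v : Cn n → EReal}
    (hv : IsPSH D v) {C : ℝ}
    (h1 : ∀ z ∈ D, v z ≤ ((min (phip (PP F c R z)) (phim (PP F c R z)) + C : ℝ) : EReal))
    (h2 : ∀ z ∈ D, v z ≤ ((phim (PP F c R z) : ℝ) : EReal))
    {a : Cn n} (hea : inner ℂ F.e a = 0) (hfa : inner ℂ F.f a = 0) {y : Cn 2} (hy : y ∈ B2) :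
    v (GG F c' r a y) ≤ ((3 / 2 * Om y -
      ((1 + ‖a‖ ^ 2) / (r / R) - (1 + ‖a‖ ^ 2)) * (om y).re : ℝ) : EReal) := by
  have hR : 0 < R := hr.trans_le hrR
  have hK : 1 ≤ 1 + ‖a‖ ^ 2 := by nlinarith [norm_nonneg a]
  have hK0 : 0 < 1 + ‖a‖ ^ 2 := by linarith
  have hρ : 0 < r / R := by positivity
  have hρ1 : r / R ≤ 1 := (div_le_one hR).2 hrR
  have hKρ : 1 + ‖a‖ ^ 2 ≤ (1 + ‖a‖ ^ 2) / (r / R) := by
    rw [le_div_iff₀ hρ]; nlinarith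
  obtain ⟨B, hB⟩ : ∃ B : ℝ, B = (1 + ‖a‖ ^ 2) / (r / R) - (1 + ‖a‖ ^ 2) := ⟨_, rfl⟩
  have hmaps : MapsTo (GG F c' r a) B2 D := fun y hy => hin (GG_mem F hr hea hfa hy)
  have hu : IsPSH B2 (fun y => v (GG F c' r a y) + ((((B : ℂ) * om y).re : ℝ) : EReal)) :=
    psh_add_re isOpen_ball (psh_comp hv (differentiable_GG F c' r a) hmaps)
      (differentiableOn_om.const_mul _)
  have hneg : ∀ y ∈ B2, phip y < 0 ∧ phim y < 0 := fun y hy =>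
    ⟨phip_le.trans_lt (Om_neg hy), phim_le.trans_lt (Om_neg hy)⟩
  have hu0 : ∀ y ∈ B2, v (GG F c' r a y) + ((((B : ℂ) * om y).re : ℝ) : EReal) ≤ 0 := by
    intro y hy
    refine (add_le_add (h2 _ (hmaps hy)) le_rfl).trans ?_
    rw [← EReal.coe_add, phim_PG F hr hR hc' hea hfa hy, Complex.re_ofReal_mul, ← hB]
    have h3 := (hneg y hy).2
    have h4 : (1 + ‖a‖ ^ 2) * phim y - B * (om y).re - ((1 + ‖a‖ ^ 2) / (r / R) - 1) +
        B * (om y).re ≤ 0 := by nlinarith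
    exact_mod_cast h4
  have hu1 : ∀ y ∈ B2, v (GG F c' r a y) + ((((B : ℂ) * om y).re : ℝ) : EReal) ≤
      ((min (phip y) (phim y) + C : ℝ) : EReal) := by
    intro y hy
    refine (add_le_add (h1 _ (hmaps hy)) le_rfl).trans ?_
    rw [← EReal.coe_add, EReal.coe_le_coe_iff, phim_PG F hr hR hc' hea hfa hy,
      phip_PG F hr hR hc' hea hfa hy, Complex.re_ofReal_mul, ← hB]
    obtain ⟨h3, h4⟩ := hneg y hy
    rcases min_choice (phip y) (phim y) with h5 | h5 <;> rw [h5]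
    · have h6 := min_le_left ((1 + ‖a‖ ^ 2) * phip y - B * (om y).re -
        ((1 + ‖a‖ ^ 2) / (r / R) - 1)) ((1 + ‖a‖ ^ 2) * phim y - B * (om y).re -
        ((1 + ‖a‖ ^ 2) / (r / R) - 1))
      nlinarith
    · have h6 := min_le_right ((1 + ‖a‖ ^ 2) * phip y - B * (om y).re -
        ((1 + ‖a‖ ^ 2) / (r / R) - 1)) ((1 + ‖a‖ ^ 2) * phim y - B * (om y).re -
        ((1 + ‖a‖ ^ 2) / (r / R) - 1))
      nlinarith
  have key := bound_min hu hu0 hu1 hy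
  have e1 : ((3 / 2 * Om y : ℝ) : EReal) - ((((B : ℂ) * om y).re : ℝ) : EReal) =
      ((3 / 2 * Om y - ((1 + ‖a‖ ^ 2) / (r / R) - (1 + ‖a‖ ^ 2)) * (om y).re : ℝ) : EReal) := by
    rw [← EReal.coe_sub, Complex.re_ofReal_mul, hB]
  rw [← e1, EReal.le_sub_iff_add_le (Or.inl (EReal.coe_ne_bot _)) (Or.inl (EReal.coe_ne_top _))]
  exact key

end KS6_84.Roof
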