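import Pool.Graph.R_pool_sql_team_seeded_3997aac3.Q72.Res.Lower

/-!
# Tools: adding a pluriharmonic function, composing with entire maps, lower bound on `g_φ`
-/

set_option autoImplicit false

open Metric Set Filter Topology

namespace KS6_84.Roof

open Q72.Psh Q72.Res

variable {n : ℕ} {D : Set (Cn n)}

/-- composition with an entire map -/
lemma psh_comp {m : ℕ} {O : Set (Cn m)} {u : Cn n → EReal} (hu : IsPSH D u) {G : Cn m → Cn n}
    (hG : Differentiable ℂ G) (hm : MapsTo G O D) : IsPSH O (fun z => u (G z)) := by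
  have h := hu.comp_sub hG hm 0
  simpa using h

/-- adding the real part of a holomorphic function -/
lemma psh_add_re (hD : IsOpen D) {u : Cn n → EReal} (hu : IsPSH D u) {H : Cn n → ℂ}
    (hH : DifferentiableOn ℂ H D) : IsPSH D (fun z => u z + (((H z).re : ℝ) : EReal)) := by
  refine ⟨?_, ?_, ?_⟩
  · have h1 : UpperSemicontinuousOn (fun z => (((H z).re : ℝ) : EReal)) D :=
      usc_of_continuousOn (Complex.continuous_re.comp_continuousOn hH.continuousOn)
    apply hu.1.add' h1
    intro x hx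
    exact EReal.continuousAt_add (Or.inr (EReal.coe_ne_bot _)) (Or.inr (EReal.coe_ne_top _))
  · intro x hx h
    have h1 := hu.2.1 x hx
    beta_reduce at h
    rcases eq_or_ne (u x) ⊥ with h0 | h0
    · rw [h0, EReal.bot_add] at h
      exact bot_ne_top h
    · lift u x to ℝ using ⟨h1, h0⟩ with r
      rw [← EReal.coe_add] at h
      exact EReal.coe_ne_top _ h
  · intro φ hφ hm h hh hle
    have hA := analytic_comp hD hH hφ hm
    have hAc : ContinuousOn (fun ζ => (H (φ ζ)).re) (sphere (0 : ℂ) 1) :=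
      Complex.continuous_re.comp_continuousOn (hA.continuousOn.mono sphere_subset_closedBall)
    have h1 := hu.2.2 φ hφ hm (fun ζ => h ζ - (H (φ ζ)).re) (hh.sub hAc) (fun ζ hζ => by
      have h2 := hle ζ hζ
      beta_reduce at h2
      have h3 : u (φ ζ) ≤ ((h ζ : ℝ) : EReal) - (((H (φ ζ)).re : ℝ) : EReal) := by
        rw [EReal.le_sub_iff_add_le (Or.inl (EReal.coe_ne_bot _)) (Or.inl (EReal.coe_ne_top _))]
        exact h2
      rwa [← EReal.coe_sub] at h3)
    have e1 : Real.circleAverage (fun ζ => h ζ - (H (φ ζ)).re) 0 1 =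
        Real.circleAverage h 0 1 - (H (φ 0)).re := by
      rw [← avg_re' hA]
      exact Real.circleAverage_fun_sub (hh.circleIntegrable zero_le_one)
        (hAc.circleIntegrable zero_le_one)
    rw [e1, EReal.coe_sub] at h1
    rw [EReal.le_sub_iff_add_le (Or.inl (EReal.coe_ne_bot _)) (Or.inl (EReal.coe_ne_top _))] at h1
    exact h1

/-- a real valued psh function `≤ 0` is in `PSH⁻` -/
lemma mem_neg (hne : D.Nonempty) {v : Cn n → ℝ} (hv : IsPSH D (fun z => ((v z : ℝ) : EReal)))
    (h0 : ∀ z ∈ D, v z ≤ 0) : (fun z => ((v z : ℝ) : EReal)) ∈ PSHneg D := by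
  obtain ⟨x, hx⟩ := hne
  refine ⟨hv, fun z hz => ?_, x, hx, EReal.coe_ne_bot _⟩
  have := h0 z hz
  beta_reduce
  exact_mod_cast this

/-- the pulled back Poisson kernel is a lower bound of the residual function of the pull back of
`-Re (ω - ζ²)` -/
theorem Om_le_res_pull (hD : IsOpen D) {P : Cn n → Cn 2} (hP : Differentiable ℂ P)
    (hm : MapsTo P D B2) {x : Cn n} (hx : x ∈ D) :
    ((Om (P x) : ℝ) : EReal) ≤ res D (fun z => ((phip (P z) : ℝ) : EReal)) x := by
  have hom : DifferentiableOn ℂ (fun z => om (P z)) D :=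
    differentiableOn_om.comp hP.differentiableOn hm
  have hze : DifferentiableOn ℂ (fun z => ze (P z)) D :=
    differentiableOn_ze.comp hP.differentiableOn hm
  have hid : ∀ z : Cn n, ((-Complex.I * ze (P z)) ^ 2).re =
      2 * (-Complex.I * ze (P z)).re ^ 2 - ‖ze (P z)‖ ^ 2 := by
    intro z
    rw [norm_sq_re_im (ze (P z)), sq, Complex.mul_re]
    simp
    ring
  have hlim : Tendsto (fun κ : ℝ => ((κ * Om (P x) : ℝ) : EReal)) (𝓝[>] 1)
      (𝓝 ((1 * Om (P x) : ℝ) : EReal)) := by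
    have hc : Continuous (fun κ : ℝ => ((κ * Om (P x) : ℝ) : EReal)) :=
      continuous_coe_real_ereal.comp (by fun_prop)
    exact (hc.tendsto 1).mono_left nhdsWithin_le_nhds
  rw [one_mul] at hlim
  refine le_of_tendsto hlim (eventually_nhdsWithin_of_forall fun κ hκ => ?_)
  have hκ1 : 1 < κ := hκ
  have hκ0 : 0 < κ := by linarith
  obtain ⟨L, hL⟩ : ∃ L : Cn n → ℂ, L = fun z => -Complex.I * ze (P z) := ⟨_, rfl⟩
  have hLd : DifferentiableOn ℂ L D := by rw [hL]; exact hze.const_mul _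
  have hid' : ∀ z : Cn n, (L z ^ 2).re = 2 * (L z).re ^ 2 - ‖ze (P z)‖ ^ 2 := by
    intro z; rw [hL]; exact hid z
  have hphi : ∀ z : Cn n, phip (P z) = -(om (P z) + L z ^ 2).re := by
    intro z
    unfold phip
    rw [hL]
    have : (-Complex.I * ze (P z)) ^ 2 = -(ze (P z) ^ 2) := by
      rw [mul_pow, neg_sq, Complex.I_sq]; ring
    beta_reduce
    rw [this, sub_eq_add_neg]
  obtain ⟨β, hβ⟩ : ∃ β : ℝ, β = 4 * κ * (L x).re := ⟨_, rfl⟩
  -- the competitor
  have hval : ∀ z : Cn n, (-(κ : ℂ) * (om (P z) + L z ^ 2) + (β : ℂ) * L z -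
      ((β ^ 2 / (8 * κ) : ℝ) : ℂ)).re = κ * Om (P z) - 2 * κ * ((L z).re - β / (4 * κ)) ^ 2 := by
    intro z
    rw [Complex.sub_re, Complex.add_re, Complex.ofReal_re, Complex.re_ofReal_mul, neg_mul,
      Complex.neg_re, Complex.re_ofReal_mul, Complex.add_re, hid']
    unfold Om
    field_simp
    ring
  have hvP : (fun z => (((-(κ : ℂ) * (om (P z) + L z ^ 2) + (β : ℂ) * L z -
      ((β ^ 2 / (8 * κ) : ℝ) : ℂ)).re : ℝ) : EReal)) ∈ PSHneg D := by
    apply mem_neg ⟨x, hx⟩
    · exact isPSH_re hD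
        ((((hom.add (hLd.pow 2)).const_mul _).add (hLd.const_mul _)).sub_const _)
    · intro z hz
      rw [hval]
      have h1 := Om_neg (hm hz)
      have h2 : 0 ≤ 2 * κ * ((L z).re - β / (4 * κ)) ^ 2 := by positivity
      nlinarith
  have key := le_res (D := D) (φ := fun z => ((phip (P z) : ℝ) : EReal)) hvP
    ⟨β ^ 2 / (8 * (κ - 1)), fun y hy => ?_⟩ x
  · refine le_trans (le_of_eq ?_) key
    rw [hval, hβ]
    congr 1
    have : (L x).re - 4 * κ * (L x).re / (4 * κ) = 0 := by
      field_simp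
      ring
    rw [this]
    ring
  · rw [hphi y, ← EReal.coe_add, EReal.coe_le_coe_iff, hval, Complex.add_re, hid']
    have h1 := Om_neg (hm hy)
    have h3 : 0 < κ - 1 := by linarith
    have h4 : κ * Om (P y) - 2 * κ * ((L y).re - β / (4 * κ)) ^ 2 =
        κ * Om (P y) - 2 * κ * (L y).re ^ 2 + β * (L y).re - β ^ 2 / (8 * κ) := by
      field_simp
      ring
    have h5 : 0 ≤ β ^ 2 / (8 * κ) := by positivity
    have h6 : β * (L y).re ≤ 2 * (κ - 1) * (L y).re ^ 2 + β ^ 2 / (8 * (κ - 1)) := by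
      have h7 : 0 ≤ 2 * (κ - 1) * ((L y).re - β / (4 * (κ - 1))) ^ 2 := by positivity
      have h8 : 2 * (κ - 1) * ((L y).re - β / (4 * (κ - 1))) ^ 2 =
          2 * (κ - 1) * (L y).re ^ 2 - β * (L y).re + β ^ 2 / (8 * (κ - 1)) := by
        field_simp
        ring
      linarith
    rw [h4]
    unfold Om at h1 ⊢
    nlinarith

end KS6_84.Roof
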